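import Mathlib

/-!
# Weak approximation at the real places, statement
-/

set_option autoImplicit false

namespace Pool.Agent.K4H1.RB

/-- the absolute Galois group of `ℚ` -/
abbrev GQ : Type := AlgebraicClosure ℚ ≃ₐ[ℚ] AlgebraicClosure ℚ

/-- `c` is a complex conjugation: for some embedding `φ` of the algebraic closure of `ℚ` into `ℂ` it
is the restriction of the complex conjugation of `ℂ` -/
def IsCC (c : GQ) : Prop :=
  ∃ φ : AlgebraicClosure ℚ →+* ℂ, ∀ x, φ (c x) = (starRingEnd ℂ) (φ x)

/-- Weak approximation at the real places: every function on the set of the real places of the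
fixed field of `H` with values `±1` (a function on the complex conjugations in `H`, invariant
under conjugation by `H`) is given by a quadratic character of `H`. -/
def WA : Prop := ∀ (H : Subgroup GQ), IsOpen (H : Set GQ) → ∀ s : GQ → ℤˣ,
  (∀ c ∈ H, IsCC c → ∀ h ∈ H, s (h * c * h⁻¹) = s c) →
  ∃ χ : H →* ℤˣ, IsOpen ((χ.ker.map H.subtype : Subgroup GQ) : Set GQ) ∧
    ∀ c : H, IsCC (c : GQ) → χ c = s c

end Pool.Agent.K4H1.RB
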